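import Mathlib

set_option autoImplicit false

namespace Pool.Agent.Helper87.Kl

open Finset
open scoped FinsetFamily

variable {α : Type*} [DecidableEq α]

/-- Lovasz form of Kruskal-Katona, for `Fin n`, as a statement on covered sets. -/
lemma kk_cover_fin {n : ℕ} (𝒜 : Finset (Finset (Fin n))) {s k m : ℕ}
    (h𝒜 : ∀ A ∈ 𝒜, #A = s) (hms : m ≤ s) (hsk : s ≤ k) (hkn : k ≤ n)
    (hc : k.choose s ≤ #𝒜) :
    k.choose m ≤ #{Y ∈ (univ : Finset (Fin n)).powersetCard m | ∃ A ∈ 𝒜, Y ⊆ A} := by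
  have h1 : (𝒜 : Set (Finset (Fin n))).Sized s := fun A hA => h𝒜 A (by simpa using hA)
  have h := kruskal_katona_lovasz_form (i := s - m) (r := s) (k := k) (n := n)
    (Nat.sub_le _ _) hsk hkn h1 hc
  rw [Nat.sub_sub_self hms] at h
  refine h.trans (card_le_card ?_)
  intro Y hY
  rw [mem_shadow_iterate_iff_exists_sdiff] at hY
  obtain ⟨A, hA, hYA, hcard⟩ := hY
  rw [mem_filter, mem_powersetCard]
  refine ⟨⟨subset_univ _, ?_⟩, A, hA, hYA⟩
  have h2 := card_sdiff_add_card_eq_card hYA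
  have h3 := h𝒜 A hA
  omega

/-- Lovasz form of Kruskal-Katona on an arbitrary finite ground set `X`. -/
theorem kk_cover (X : Finset α) (𝒜 : Finset (Finset α)) {s k m : ℕ}
    (h𝒜 : ∀ A ∈ 𝒜, A ⊆ X ∧ #A = s) (hms : m ≤ s) (hsk : s ≤ k) (hkn : k ≤ #X)
    (hc : k.choose s ≤ #𝒜) :
    k.choose m ≤ #{Y ∈ X.powersetCard m | ∃ A ∈ 𝒜, Y ⊆ A} := by
  classical
  -- an embedding of `Fin #X` onto `X`
  let e : Fin #X ≃ X := X.equivFin.symm
  let ι : Fin #X ↪ α := e.toEmbedding.trans (Function.Embedding.subtype _)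
  have hι : ∀ x ∈ X, ∃ i, ι i = x := by
    intro x hx
    exact ⟨e.symm ⟨x, hx⟩, by simp [ι]⟩
  have hιX : ∀ i, ι i ∈ X := fun i => by simp [ι]
  let pull : Finset α → Finset (Fin #X) := fun A => univ.filter (fun i => ι i ∈ A)
  have hpp : ∀ A, A ⊆ X → (pull A).map ι = A := by
    intro A hA
    ext x
    simp only [pull, mem_map, mem_filter, mem_univ, true_and]
    constructor
    · rintro ⟨i, hi, rfl⟩
      exact hi
    · intro hx
      obtain ⟨i, rfl⟩ := hι x (hA hx)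
      exact ⟨i, hx, rfl⟩
  have hcardpull : ∀ A, A ⊆ X → #(pull A) = #A := by
    intro A hA
    conv_rhs => rw [← hpp A hA]
    rw [card_map]
  let 𝒜' : Finset (Finset (Fin #X)) := 𝒜.image pull
  have hinj : Set.InjOn pull (𝒜 : Set (Finset α)) := by
    intro A hA B hB hAB
    rw [← hpp A (h𝒜 A (by simpa using hA)).1, ← hpp B (h𝒜 B (by simpa using hB)).1, hAB]
  have hc' : k.choose s ≤ #𝒜' := by
    rw [card_image_of_injOn hinj]
    exact hc
  have h := kk_cover_fin 𝒜' (s := s) (k := k) (m := m) (by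
    intro A hA
    obtain ⟨B, hB, rfl⟩ := mem_image.1 hA
    rw [hcardpull B (h𝒜 B hB).1]
    exact (h𝒜 B hB).2) hms hsk hkn hc'
  refine h.trans ?_
  refine card_le_card_of_injOn (fun Y => Y.map ι) ?_ ?_
  · intro Y hY
    rw [mem_coe, mem_filter, mem_powersetCard] at hY
    obtain ⟨⟨-, hYm⟩, A, hA, hYA⟩ := hY
    obtain ⟨B, hB, rfl⟩ := mem_image.1 hA
    rw [mem_coe, mem_filter, mem_powersetCard]
    refine ⟨⟨?_, by rw [card_map]; exact hYm⟩, B, hB, ?_⟩
    · intro x hx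
      obtain ⟨i, -, rfl⟩ := mem_map.1 hx
      exact hιX i
    · intro x hx
      obtain ⟨i, hi, rfl⟩ := mem_map.1 hx
      have := hYA hi
      simpa [pull] using this
  · intro Y _ Z _ hYZ
    exact map_injective ι hYZ

/-- (KKX): two families of subsets of `X` no two members of which cover `X`. -/
theorem kkx (X : Finset α) (𝒜 ℬ : Finset (Finset α)) {s b T : ℕ}
    (h𝒜 : ∀ A ∈ 𝒜, A ⊆ X ∧ #A = s) (hℬ : ∀ B ∈ ℬ, B ⊆ X ∧ #B = b)
    (hAB : ∀ A ∈ 𝒜, ∀ B ∈ ℬ, A ∪ B ≠ X)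
    (hsb : #X ≤ s + b) (hsT : s ≤ #X - T) (hb : b ≤ #X)
    (hc : (#X - T).choose s ≤ #𝒜) :
    #ℬ + (#X - T).choose (#X - b) ≤ (#X).choose b := by
  classical
  have h := kk_cover X 𝒜 (s := s) (k := #X - T) (m := #X - b) h𝒜 (by omega) hsT
    (Nat.sub_le _ _) hc
  set 𝒴 := {Y ∈ X.powersetCard (#X - b) | ∃ A ∈ 𝒜, Y ⊆ A} with h𝒴
  -- complements of `𝒴`
  have hinj : Set.InjOn (fun Y => X \ Y) (𝒴 : Set (Finset α)) := by
    intro Y hY Z hZ hYZ
    have h1 : Y ⊆ X := (mem_powersetCard.1 (mem_filter.1 (mem_coe.1 hY)).1).1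
    have h2 : Z ⊆ X := (mem_powersetCard.1 (mem_filter.1 (mem_coe.1 hZ)).1).1
    have hYZ' : X \ Y = X \ Z := hYZ
    rw [← Finset.sdiff_sdiff_eq_self h1, hYZ', Finset.sdiff_sdiff_eq_self h2]
  have hdisj : Disjoint ℬ (𝒴.image (fun Y => X \ Y)) := by
    rw [disjoint_left]
    intro B hB hB'
    obtain ⟨Y, hY, rfl⟩ := mem_image.1 hB'
    obtain ⟨hYX, A, hA, hYA⟩ := mem_filter.1 hY
    refine hAB A hA _ hB ?_
    have h1 : Y ⊆ X := (mem_powersetCard.1 hYX).1
    apply le_antisymm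
    · exact union_subset (h𝒜 A hA).1 sdiff_subset
    · intro x hx
      by_cases hxY : x ∈ Y
      · exact mem_union_left _ (hYA hxY)
      · exact mem_union_right _ (mem_sdiff.2 ⟨hx, hxY⟩)
  have hsub : ℬ ∪ 𝒴.image (fun Y => X \ Y) ⊆ X.powersetCard b := by
    intro B hB
    rcases mem_union.1 hB with hB | hB
    · exact mem_powersetCard.2 (hℬ B hB)
    · obtain ⟨Y, hY, rfl⟩ := mem_image.1 hB
      have h1 := mem_powersetCard.1 (mem_filter.1 hY).1
      refine mem_powersetCard.2 ⟨sdiff_subset, ?_⟩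
      rw [card_sdiff_of_subset h1.1, h1.2]
      omega
  have := card_le_card hsub
  rw [card_union_of_disjoint hdisj, card_image_of_injOn hinj, card_powersetCard] at this
  omega

end Pool.Agent.Helper87.Kl
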