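import Mathlib
import Pool.Agent.Helper87.Kl.KKX

set_option autoImplicit false

namespace Pool.Agent.Helper87.Kl

open Finset

variable {g : ℕ}

/-- the elementary shift: replace `j` by `i` if possible -/
def sh (i j : Fin g) (A : Finset (Fin g)) : Finset (Fin g) :=
  if j ∈ A ∧ i ∉ A then insert i (A.erase j) else A

/-- the effect of the shift on a member of the family -/
def shf (𝒰 : Finset (Finset (Fin g))) (i j : Fin g) (A : Finset (Fin g)) : Finset (Fin g) :=
  if sh i j A ∈ 𝒰 then A else sh i j A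

/-- the shifted family -/
def shift (𝒰 : Finset (Finset (Fin g))) (i j : Fin g) : Finset (Finset (Fin g)) :=
  𝒰.image (shf 𝒰 i j)

/-- intersecting -/
def Inter (𝒰 : Finset (Finset (Fin g))) : Prop :=
  ∀ A ∈ 𝒰, ∀ B ∈ 𝒰, (A ∩ B).Nonempty

lemma sh_card {i j : Fin g} {A : Finset (Fin g)} : #(sh i j A) = #A := by
  unfold sh
  split_ifs with h
  · rw [card_insert_of_notMem (fun h' => h.2 (mem_of_mem_erase h')), card_erase_of_mem h.1]
    have : 0 < #A := card_pos.2 ⟨j, h.1⟩
    omega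
  · rfl

lemma shf_card {𝒰 : Finset (Finset (Fin g))} {i j : Fin g} {A : Finset (Fin g)} :
    #(shf 𝒰 i j A) = #A := by
  unfold shf
  split_ifs
  · rfl
  · exact sh_card

lemma shf_cases {𝒰 : Finset (Finset (Fin g))} {i j : Fin g} {A : Finset (Fin g)} (hA : A ∈ 𝒰) :
    (shf 𝒰 i j A = A ∧ (j ∈ A → i ∉ A → insert i (A.erase j) ∈ 𝒰)) ∨
    (shf 𝒰 i j A = insert i (A.erase j) ∧ j ∈ A ∧ i ∉ A ∧ insert i (A.erase j) ∉ 𝒰) := by
  unfold shf
  split_ifs with h
  · left
    refine ⟨rfl, fun h1 h2 => ?_⟩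
    unfold sh at h
    rwa [if_pos ⟨h1, h2⟩] at h
  · right
    unfold sh at h ⊢
    by_cases h1 : j ∈ A ∧ i ∉ A
    · rw [if_pos h1] at h ⊢
      exact ⟨rfl, h1.1, h1.2, h⟩
    · rw [if_neg h1] at h
      exact absurd hA h

lemma shf_injOn (𝒰 : Finset (Finset (Fin g))) (i j : Fin g) :
    Set.InjOn (shf 𝒰 i j) (𝒰 : Set (Finset (Fin g))) := by
  intro A hA B hB h
  have hA' : A ∈ 𝒰 := by simpa using hA
  have hB' : B ∈ 𝒰 := by simpa using hB
  rcases shf_cases (i := i) (j := j) hA' with ⟨h1, h1'⟩ | ⟨h1, hjA, hiA, h1'⟩ <;>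
    rcases shf_cases (i := i) (j := j) hB' with ⟨h2, h2'⟩ | ⟨h2, hjB, hiB, h2'⟩
  · rw [← h1, ← h2, h]
  · exact absurd (by rw [← h2, ← h, h1]; exact hA') h2'
  · exact absurd (by rw [← h1, h, h2]; exact hB') h1'
  · rw [h1, h2] at h
    have h3 : (insert i (A.erase j)).erase i = (insert i (B.erase j)).erase i := by rw [h]
    rw [erase_insert (fun h' => hiA (mem_of_mem_erase h')),
      erase_insert (fun h' => hiB (mem_of_mem_erase h'))] at h3
    rw [← insert_erase hjA, ← insert_erase hjB, h3]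

lemma shift_card (𝒰 : Finset (Finset (Fin g))) (i j : Fin g) : #(shift 𝒰 i j) = #𝒰 :=
  card_image_of_injOn (shf_injOn 𝒰 i j)

lemma shift_inter {𝒰 : Finset (Finset (Fin g))} (h𝒰 : Inter 𝒰) (i j : Fin g) :
    Inter (shift 𝒰 i j) := by
  -- key: a shifted set meets an unshifted one
  have key : ∀ A ∈ 𝒰, ∀ B ∈ 𝒰, (j ∈ A → i ∉ A → insert i (A.erase j) ∈ 𝒰) →
      j ∈ B → i ∉ B → (A ∩ insert i (B.erase j)).Nonempty := by
    intro A hA B hB h1 hjB hiB
    by_contra hne
    rw [not_nonempty_iff_eq_empty, eq_empty_iff_forall_notMem] at hne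
    have hiA : i ∉ A := fun h => hne i (mem_inter.2 ⟨h, mem_insert_self _ _⟩)
    obtain ⟨x, hx⟩ := h𝒰 A hA B hB
    have hxA := (mem_inter.1 hx).1
    have hxB := (mem_inter.1 hx).2
    have hxj : x = j := by
      by_contra hxj
      exact hne x (mem_inter.2 ⟨hxA, mem_insert_of_mem (mem_erase.2 ⟨hxj, hxB⟩)⟩)
    subst hxj
    obtain ⟨y, hy⟩ := h𝒰 _ (h1 hxA hiA) B hB
    have hyA := (mem_inter.1 hy).1
    have hyB := (mem_inter.1 hy).2
    rcases mem_insert.1 hyA with rfl | hyA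
    · exact hiB hyB
    · have h3 := mem_erase.1 hyA
      exact hne y (mem_inter.2 ⟨h3.2, mem_insert_of_mem (mem_erase.2 ⟨h3.1, hyB⟩)⟩)
  intro A' hA' B' hB'
  obtain ⟨A, hA, rfl⟩ := mem_image.1 hA'
  obtain ⟨B, hB, rfl⟩ := mem_image.1 hB'
  rcases shf_cases (i := i) (j := j) hA with ⟨h1, h1'⟩ | ⟨h1, hjA, hiA, h1'⟩ <;>
    rcases shf_cases (i := i) (j := j) hB with ⟨h2, h2'⟩ | ⟨h2, hjB, hiB, h2'⟩
  · rw [h1, h2]
    exact h𝒰 A hA B hB
  · rw [h1, h2]
    exact key A hA B hB h1' hjB hiB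
  · rw [h1, h2, inter_comm]
    exact key B hB A hA h2' hjA hiA
  · rw [h1, h2]
    exact ⟨i, mem_inter.2 ⟨mem_insert_self _ _, mem_insert_self _ _⟩⟩

/-- number of members containing `x` -/
def deg (𝒰 : Finset (Finset (Fin g))) (x : Fin g) : ℕ := #{A ∈ 𝒰 | x ∈ A}

lemma deg_shift_eq (𝒰 : Finset (Finset (Fin g))) (i j x : Fin g) :
    deg (shift 𝒰 i j) x = #{A ∈ 𝒰 | x ∈ shf 𝒰 i j A} := by
  unfold deg shift
  rw [filter_image, card_image_of_injOn]
  exact (shf_injOn 𝒰 i j).mono (by intro A hA; simpa using (mem_filter.1 (mem_coe.1 hA)).1)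

lemma deg_shift_le {𝒰 : Finset (Finset (Fin g))} {i j x : Fin g} (hx : x ≠ i) :
    deg (shift 𝒰 i j) x ≤ deg 𝒰 x := by
  rw [deg_shift_eq]
  refine card_le_card ?_
  intro A hA
  rw [mem_filter] at hA ⊢
  refine ⟨hA.1, ?_⟩
  rcases shf_cases (i := i) (j := j) hA.1 with ⟨h1, h1'⟩ | ⟨h1, hjA, hiA, h1'⟩
  · rw [← h1]; exact hA.2
  · have := hA.2
    rw [h1] at this
    rcases mem_insert.1 this with h | h
    · exact absurd h hx
    · exact mem_of_mem_erase h

lemma deg_shift_self_le {𝒰 : Finset (Finset (Fin g))} {i j : Fin g} :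
    deg (shift 𝒰 i j) i ≤ deg 𝒰 i + deg 𝒰 j := by
  rw [deg_shift_eq]
  unfold deg
  refine (card_le_card ?_).trans (card_union_le _ _)
  intro A hA
  rw [mem_filter] at hA
  rw [mem_union, mem_filter, mem_filter]
  rcases shf_cases (i := i) (j := j) hA.1 with ⟨h1, h1'⟩ | ⟨h1, hjA, hiA, h1'⟩
  · left
    exact ⟨hA.1, by rw [← h1]; exact hA.2⟩
  · exact Or.inr ⟨hA.1, hjA⟩

/-- the potential -/
def pot (𝒰 : Finset (Finset (Fin g))) : ℕ := ∑ A ∈ 𝒰, ∑ a ∈ A, (a : ℕ)

lemma pot_shift_lt {𝒰 : Finset (Finset (Fin g))} {i j : Fin g} (hij : i < j)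
    (h : ∃ A ∈ 𝒰, j ∈ A ∧ i ∉ A ∧ insert i (A.erase j) ∉ 𝒰) :
    pot (shift 𝒰 i j) < pot 𝒰 := by
  unfold pot shift
  rw [sum_image (fun A hA B hB h => shf_injOn 𝒰 i j hA hB h)]
  have hlt : ∀ A : Finset (Fin g), j ∈ A → i ∉ A →
      ∑ a ∈ insert i (A.erase j), (a : ℕ) < ∑ a ∈ A, (a : ℕ) := by
    intro A hjA hiA
    rw [sum_insert (fun h' => hiA (mem_of_mem_erase h')), ← add_sum_erase A (fun a => (a : ℕ)) hjA]
    have : (i : ℕ) < (j : ℕ) := hij
    omega
  apply sum_lt_sum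
  · intro A hA
    rcases shf_cases (i := i) (j := j) hA with ⟨h1, h1'⟩ | ⟨h1, hjA, hiA, h1'⟩
    · rw [h1]
    · rw [h1]
      exact (hlt A hjA hiA).le
  · obtain ⟨A, hA, hjA, hiA, hn⟩ := h
    refine ⟨A, hA, ?_⟩
    rcases shf_cases (i := i) (j := j) hA with ⟨h1, h1'⟩ | ⟨h1, hjA, hiA, h1'⟩
    · exact absurd (h1' hjA hiA) hn
    · rw [h1]
      exact hlt A hjA hiA

/-- fully shifted -/
def Shifted (𝒰 : Finset (Finset (Fin g))) : Prop :=
  ∀ i j : Fin g, i < j → ∀ A ∈ 𝒰, j ∈ A → i ∉ A → insert i (A.erase j) ∈ 𝒰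

/-- In a fully shifted intersecting family every member has more than half of some initial odd
segment. -/
lemma shifted_dense {𝒰 : Finset (Finset (Fin g))} (hs : Shifted 𝒰) (hI : Inter 𝒰)
    {E : Finset (Fin g)} (hE : E ∈ 𝒰) :
    ∃ t : ℕ, t + 1 ≤ #(E.filter (fun x : Fin g => (x : ℕ) < 2 * t + 1)) := by
  by_contra hcon
  push Not at hcon
  -- P(S)
  have key : ∀ n : ℕ, ∀ S ⊆ E, #S = n → (∀ x ∈ S, ∀ y ∈ E, y < x → y ∈ S) →
      ∃ F : Finset (Fin g), Disjoint F E ∧ #F = #S ∧ (E \ S) ∪ F ∈ 𝒰 := by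
    intro n
    induction n with
    | zero =>
      intro S hS hn _
      rw [card_eq_zero] at hn
      subst hn
      exact ⟨∅, by simp, by simp, by simpa using hE⟩
    | succ n ih =>
      intro S hS hn hdown
      have hne : S.Nonempty := by
        rw [← card_pos]; omega
      set e := S.max' hne with he
      have heS : e ∈ S := max'_mem _ _
      have hS'card : #(S.erase e) = n := by
        rw [card_erase_of_mem heS]; omega
      obtain ⟨F, hF1, hF2, hF3⟩ := ih (S.erase e) ((erase_subset _ _).trans hS) hS'card (by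
        intro x hx y hy hyx
        have hxS := mem_of_mem_erase hx
        refine mem_erase.2 ⟨?_, hdown x hxS y hy hyx⟩
        rintro rfl
        exact absurd (le_max' S x hxS) (not_le.2 hyx))
      -- find `f`
      have hlow : 2 * n + 1 ≤ (e : ℕ) := by
        by_contra hlt
        push Not at hlt
        have h1 := hcon n
        have h2 : S ⊆ E.filter (fun x : Fin g => (x : ℕ) < 2 * n + 1) := by
          intro x hx
          rw [mem_filter]
          refine ⟨hS hx, lt_of_le_of_lt ?_ hlt⟩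
          exact le_max' S x hx
        have h3 := card_le_card h2
        omega
      have hexists : ∃ f : Fin g, f < e ∧ f ∉ E ∧ f ∉ F := by
        by_contra hno
        push Not at hno
        have h1 : Finset.Iio e ⊆ S.erase e ∪ F := by
          intro f hf
          have hfe := mem_Iio.1 hf
          by_cases hfE : f ∈ E
          · exact mem_union_left _ (mem_erase.2 ⟨hfe.ne, hdown e heS f hfE hfe⟩)
          · exact mem_union_right _ (hno f hfe hfE)
        have h2 := (card_le_card h1).trans (card_union_le _ _)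
        rw [Fin.card_Iio, hF2, hS'card] at h2
        omega
      obtain ⟨f, hfe, hfE, hfF⟩ := hexists
      refine ⟨insert f F, ?_, ?_, ?_⟩
      · rw [disjoint_insert_left]
        exact ⟨hfE, hF1⟩
      · rw [card_insert_of_notMem hfF, hF2, hS'card, hn]
      · have h1 := hs f e hfe _ hF3 (by
          rw [mem_union, mem_sdiff]
          exact Or.inl ⟨hS heS, fun h => (mem_erase.1 h).1 rfl⟩) (by
          rw [mem_union, mem_sdiff]
          rintro (⟨h, -⟩ | h)
          · exact hfE h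
          · exact hfF h)
        have heF : e ∉ F := fun h => (disjoint_left.1 hF1 h) (hS heS)
        have h2 : insert f (((E \ S.erase e) ∪ F).erase e) = (E \ S) ∪ insert f F := by
          ext x
          simp only [mem_insert, mem_erase, mem_union, mem_sdiff]
          constructor
          · rintro (rfl | ⟨hxe, ⟨hxE, hxS⟩ | hxF⟩)
            · exact Or.inr (Or.inl rfl)
            · left
              refine ⟨hxE, fun hxS' => hxS ⟨hxe, hxS'⟩⟩
            · exact Or.inr (Or.inr hxF)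
          · rintro (⟨hxE, hxS⟩ | rfl | hxF)
            · right
              refine ⟨fun h => hxS (h ▸ heS), Or.inl ⟨hxE, fun h => hxS h.2⟩⟩
            · exact Or.inl rfl
            · right
              refine ⟨fun h => heF (h ▸ hxF), Or.inr hxF⟩
        rw [← h2]
        exact h1
  obtain ⟨F, hF1, -, hF3⟩ := key _ E (Subset.refl _) rfl (fun _ _ y hy _ => hy)
  rw [Finset.sdiff_self, empty_union] at hF3
  obtain ⟨x, hx⟩ := hI F hF3 E hE
  exact disjoint_left.1 hF1 (mem_inter.1 hx).1 (mem_inter.1 hx).2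

end Pool.Agent.Helper87.Kl
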