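import Mathlib
import Pool.Agent.Helper87.Kl.Shift

set_option autoImplicit false

namespace Pool.Agent.Helper87.Kl

open Finset

/-- ratio bound for binomials -/
lemma choose_ratio {g m : ℕ} (hmg : m ≤ g) (i : ℕ) (him : i ≤ m) :
    ((g - i).choose (m - i) : ℝ) ≤ ((m : ℝ) / g) ^ i * (g.choose m : ℝ) := by
  induction i with
  | zero => simp
  | succ i ih =>
    have ih := ih (by omega)
    have hg : 0 < g := by omega
    have h1 : (g - i) * (g - i - 1).choose (m - i - 1) = (g - i).choose (m - i) * (m - i) := by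
      have h := Nat.add_one_mul_choose_eq (g - i - 1) (m - i - 1)
      have e1 : g - i - 1 + 1 = g - i := by omega
      have e2 : m - i - 1 + 1 = m - i := by omega
      rw [e1, e2] at h
      exact h
    have h2 : ((g : ℝ) - i) * ((g - i - 1).choose (m - i - 1) : ℝ)
        = ((g - i).choose (m - i) : ℝ) * ((m : ℝ) - i) := by
      have h := congrArg (Nat.cast (R := ℝ)) h1
      push_cast [Nat.cast_sub (show i ≤ g by omega), Nat.cast_sub (show i ≤ m by omega)] at h
      exact h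
    have hgi : (0 : ℝ) < (g : ℝ) - i := by
      have : (i : ℝ) < g := by exact_mod_cast (show i < g by omega)
      linarith
    have hg' : (0 : ℝ) < g := by exact_mod_cast hg
    have hmg' : (m : ℝ) ≤ g := by exact_mod_cast hmg
    have hratio : ((m : ℝ) - i) / ((g : ℝ) - i) ≤ (m : ℝ) / g := by
      rw [div_le_div_iff₀ hgi hg']
      have : (0 : ℝ) ≤ i := Nat.cast_nonneg i
      nlinarith
    have e3 : g - (i + 1) = g - i - 1 := by omega
    have e4 : m - (i + 1) = m - i - 1 := by omega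
    rw [e3, e4]
    have h3 : ((g - i - 1).choose (m - i - 1) : ℝ)
        = (((m : ℝ) - i) / ((g : ℝ) - i)) * ((g - i).choose (m - i) : ℝ) := by
      field_simp
      linarith
    rw [h3, pow_succ]
    have hc : (0 : ℝ) ≤ ((g - i).choose (m - i) : ℝ) := Nat.cast_nonneg _
    calc (((m : ℝ) - i) / ((g : ℝ) - i)) * ((g - i).choose (m - i) : ℝ)
        ≤ ((m : ℝ) / g) * ((g - i).choose (m - i) : ℝ) := by gcongr
      _ ≤ ((m : ℝ) / g) * (((m : ℝ) / g) ^ i * (g.choose m : ℝ)) := by gcongr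
      _ = ((m : ℝ) / g) ^ i * ((m : ℝ) / g) * (g.choose m : ℝ) := by ring

/-- number of `m`-sets containing a given set -/
lemma card_supersets {g : ℕ} (T : Finset (Fin g)) (m : ℕ) :
    #{E ∈ (univ : Finset (Fin g)).powersetCard m | T ⊆ E} ≤ (g - #T).choose (m - #T) := by
  have h : #((univ \ T).powersetCard (m - #T)) = (g - #T).choose (m - #T) := by
    rw [card_powersetCard, card_sdiff_of_subset (subset_univ _), card_univ, Fintype.card_fin]
  rw [← h]
  refine card_le_card_of_injOn (fun E => E \ T) ?_ ?_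
  · intro E hE
    rw [mem_coe, mem_filter, mem_powersetCard] at hE
    rw [mem_coe, mem_powersetCard]
    refine ⟨sdiff_subset_sdiff (subset_univ _) (Subset.refl _), ?_⟩
    rw [card_sdiff_of_subset hE.2, hE.1.2]
  · intro E hE F hF hEF
    rw [mem_coe, mem_filter] at hE hF
    have hEF' : E \ T = F \ T := hEF
    rw [← sdiff_union_of_subset hE.2, hEF', sdiff_union_of_subset hF.2]

/-- number of `m`-sets with more than half of an initial odd segment -/
lemma card_dense {g : ℕ} (m t : ℕ) (ht : t + 1 ≤ m) (hmg : m ≤ g) :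
    (#{E ∈ (univ : Finset (Fin g)).powersetCard m |
      t + 1 ≤ #(E.filter (fun x : Fin g => (x : ℕ) < 2 * t + 1))} : ℝ)
      ≤ 2 ^ (2 * t + 1) * ((m : ℝ) / g) ^ (t + 1) * (g.choose m : ℝ) := by
  classical
  set L : Finset (Fin g) := univ.filter (fun x : Fin g => (x : ℕ) < 2 * t + 1) with hL
  have hLcard : #L ≤ 2 * t + 1 := by
    have : #L ≤ #(range (2 * t + 1)) := by
      refine card_le_card_of_injOn (fun x => (x : ℕ)) ?_ ?_
      · intro x hx
        have := (mem_filter.1 (mem_coe.1 hx)).2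
        simpa using this
      · intro x _ y _ hxy
        exact Fin.ext hxy
    simpa using this
  have hsub : {E ∈ (univ : Finset (Fin g)).powersetCard m |
      t + 1 ≤ #(E.filter (fun x : Fin g => (x : ℕ) < 2 * t + 1))} ⊆
      (L.powersetCard (t + 1)).biUnion
        (fun T => {E ∈ (univ : Finset (Fin g)).powersetCard m | T ⊆ E}) := by
    intro E hE
    rw [mem_filter] at hE
    obtain ⟨T, hT, hTc⟩ := exists_subset_card_eq hE.2
    rw [mem_biUnion]
    refine ⟨T, mem_powersetCard.2 ⟨?_, hTc⟩, mem_filter.2 ⟨hE.1, ?_⟩⟩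
    · intro x hx
      have := (mem_filter.1 (hT hx)).2
      rw [hL, mem_filter]
      exact ⟨mem_univ _, this⟩
    · exact hT.trans (filter_subset _ _)
  have h1 : #{E ∈ (univ : Finset (Fin g)).powersetCard m |
      t + 1 ≤ #(E.filter (fun x : Fin g => (x : ℕ) < 2 * t + 1))} ≤
      2 ^ (2 * t + 1) * (g - (t + 1)).choose (m - (t + 1)) := by
    refine (card_le_card hsub).trans ((card_biUnion_le).trans ?_)
    calc ∑ T ∈ L.powersetCard (t + 1),
          #{E ∈ (univ : Finset (Fin g)).powersetCard m | T ⊆ E}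
        ≤ ∑ T ∈ L.powersetCard (t + 1), (g - (t + 1)).choose (m - (t + 1)) := by
          refine sum_le_sum ?_
          intro T hT
          have := card_supersets T m
          rwa [(mem_powersetCard.1 hT).2] at this
      _ = (#L).choose (t + 1) * (g - (t + 1)).choose (m - (t + 1)) := by
          rw [sum_const, card_powersetCard, smul_eq_mul]
      _ ≤ 2 ^ (2 * t + 1) * (g - (t + 1)).choose (m - (t + 1)) := by
          gcongr
          calc (#L).choose (t + 1) ≤ 2 ^ (#L) := Nat.choose_le_two_pow _ _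
            _ ≤ 2 ^ (2 * t + 1) := Nat.pow_le_pow_right (by norm_num) hLcard
  have h2 := choose_ratio hmg (t + 1) ht
  calc (#{E ∈ (univ : Finset (Fin g)).powersetCard m |
      t + 1 ≤ #(E.filter (fun x : Fin g => (x : ℕ) < 2 * t + 1))} : ℝ)
      ≤ ((2 ^ (2 * t + 1) * (g - (t + 1)).choose (m - (t + 1)) : ℕ) : ℝ) := by exact_mod_cast h1
    _ = 2 ^ (2 * t + 1) * ((g - (t + 1)).choose (m - (t + 1)) : ℝ) := by push_cast; ring
    _ ≤ 2 ^ (2 * t + 1) * (((m : ℝ) / g) ^ (t + 1) * (g.choose m : ℝ)) := by gcongr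
    _ = _ := by ring

/-- the shifted case -/
lemma shifted_case {g m : ℕ} {𝒰 : Finset (Finset (Fin g))} (hs : Shifted 𝒰) (hI : Inter 𝒰)
    (hm : ∀ A ∈ 𝒰, #A = m) (hm1 : 1 ≤ m) (hg : 100 * m ≤ g) (D : ℝ)
    (hdeg : ∀ x, (deg 𝒰 x : ℝ) ≤ D * ((g - 1).choose (m - 1) : ℝ)) (hD : 0 ≤ D) :
    (#𝒰 : ℝ) ≤ (D * ((m : ℝ) / g) + 16 * ((m : ℝ) / g) ^ 2) * (g.choose m : ℝ) := by
  classical
  have hg0 : 0 < g := by omega
  have hg' : (0 : ℝ) < g := by exact_mod_cast hg0
  set z : Fin g := ⟨0, hg0⟩ with hz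
  have hsub : 𝒰 ⊆ {A ∈ 𝒰 | z ∈ A} ∪ (Finset.Ico 1 m).biUnion (fun t =>
      {E ∈ (univ : Finset (Fin g)).powersetCard m |
        t + 1 ≤ #(E.filter (fun x : Fin g => (x : ℕ) < 2 * t + 1))}) := by
    intro E hE
    obtain ⟨t, ht⟩ := shifted_dense hs hI hE
    rw [mem_union, mem_biUnion]
    rcases Nat.eq_zero_or_pos t with rfl | htpos
    · left
      rw [mem_filter]
      refine ⟨hE, ?_⟩
      have h1 : 0 < #(E.filter (fun x : Fin g => (x : ℕ) < 2 * 0 + 1)) := by omega
      obtain ⟨x, hx⟩ := card_pos.1 h1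
      have hx2 := (mem_filter.1 hx).2
      have hx0 : x = z := by
        apply Fin.ext
        simp only [hz]
        omega
      rw [← hx0]
      exact (mem_filter.1 hx).1
    · right
      refine ⟨t, mem_Ico.2 ⟨htpos, ?_⟩, mem_filter.2 ⟨mem_powersetCard.2 ⟨subset_univ _, hm E hE⟩, ht⟩⟩
      have h1 : #(E.filter (fun x : Fin g => (x : ℕ) < 2 * t + 1)) ≤ #E := card_filter_le _ _
      rw [hm E hE] at h1
      omega
  set q : ℝ := (m : ℝ) / g with hq
  have hq0 : 0 ≤ q := by positivity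
  have hq1 : q ≤ 1 / 100 := by
    rw [hq, div_le_iff₀ hg']
    have : (100 * m : ℝ) ≤ g := by exact_mod_cast hg
    linarith
  have h1 : (#𝒰 : ℝ) ≤ (deg 𝒰 z : ℝ) + ∑ t ∈ Finset.Ico 1 m,
      2 ^ (2 * t + 1) * q ^ (t + 1) * (g.choose m : ℝ) := by
    have h2 : #𝒰 ≤ deg 𝒰 z + ∑ t ∈ Finset.Ico 1 m,
        #{E ∈ (univ : Finset (Fin g)).powersetCard m |
          t + 1 ≤ #(E.filter (fun x : Fin g => (x : ℕ) < 2 * t + 1))} :=
      (card_le_card hsub).trans ((card_union_le _ _).trans (Nat.add_le_add_left card_biUnion_le _))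
    calc (#𝒰 : ℝ) ≤ ((deg 𝒰 z + ∑ t ∈ Finset.Ico 1 m,
        #{E ∈ (univ : Finset (Fin g)).powersetCard m |
          t + 1 ≤ #(E.filter (fun x : Fin g => (x : ℕ) < 2 * t + 1))} : ℕ) : ℝ) := by
          exact_mod_cast h2
      _ = (deg 𝒰 z : ℝ) + ∑ t ∈ Finset.Ico 1 m,
        (#{E ∈ (univ : Finset (Fin g)).powersetCard m |
          t + 1 ≤ #(E.filter (fun x : Fin g => (x : ℕ) < 2 * t + 1))} : ℝ) := by
          push_cast; rfl
      _ ≤ _ := by
          gcongr with t ht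
          have ht' := mem_Ico.1 ht
          exact card_dense m t (by omega) (by omega)
  have h3 : ∑ t ∈ Finset.Ico 1 m, 2 ^ (2 * t + 1) * q ^ (t + 1) * (g.choose m : ℝ)
      ≤ 16 * q ^ 2 * (g.choose m : ℝ) := by
    rw [← sum_mul]
    gcongr
    rw [sum_Ico_eq_sum_range]
    calc ∑ k ∈ range (m - 1), (2 : ℝ) ^ (2 * (1 + k) + 1) * q ^ (1 + k + 1)
        ≤ ∑ k ∈ range (m - 1), 8 * q ^ 2 * (1 / 2) ^ k := by
          refine sum_le_sum ?_
          intro k _
          have e : (2 : ℝ) ^ (2 * (1 + k) + 1) * q ^ (1 + k + 1) = 8 * q ^ 2 * (4 * q) ^ k := by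
            rw [mul_pow, show (4 : ℝ) = 2 ^ 2 by norm_num, ← pow_mul]
            ring
          rw [e]
          have : 4 * q ≤ 1 / 2 := by linarith
          gcongr
      _ = 8 * q ^ 2 * ∑ k ∈ range (m - 1), (1 / 2 : ℝ) ^ k := by rw [mul_sum]
      _ ≤ 8 * q ^ 2 * 2 := by
          gcongr
          exact sum_geometric_two_le _
      _ = 16 * q ^ 2 := by ring
  have h4 : (deg 𝒰 z : ℝ) ≤ D * q * (g.choose m : ℝ) := by
    have h5 := choose_ratio (g := g) (m := m) (by omega) 1 hm1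
    calc (deg 𝒰 z : ℝ) ≤ D * ((g - 1).choose (m - 1) : ℝ) := hdeg z
      _ ≤ D * (q ^ 1 * (g.choose m : ℝ)) := by gcongr
      _ = _ := by ring
  calc (#𝒰 : ℝ) ≤ _ := h1
    _ ≤ D * q * (g.choose m : ℝ) + 16 * q ^ 2 * (g.choose m : ℝ) := add_le_add h4 h3
    _ = _ := by ring

/-- if a degree is large then few members avoid the vertex -/
lemma few_avoid {g m : ℕ} {𝒰 : Finset (Finset (Fin g))} (hI : Inter 𝒰)
    (hm : ∀ A ∈ 𝒰, #A = m) (hm2 : 2 ≤ m) (hg : 100 * m ≤ g) (i : Fin g)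
    (hdeg : 2 * ((m : ℝ) / g) * ((g - 1).choose (m - 1) : ℝ) < (deg 𝒰 i : ℝ)) :
    (#{A ∈ 𝒰 | i ∉ A} : ℝ) ≤ ((m : ℝ) / g) ^ 2 * (g.choose m : ℝ) := by
  classical
  have hgg := i.isLt
  set X : Finset (Fin g) := univ.erase i with hX
  have hXc : #X = g - 1 := by
    rw [hX, card_erase_of_mem (mem_univ _), card_univ, Fintype.card_fin]
  set 𝒜 := ({A ∈ 𝒰 | i ∉ A}).image (fun E => X \ E) with h𝒜
  set ℬ := ({A ∈ 𝒰 | i ∈ A}).image (fun E => X \ E) with hℬ
  have hinj1 : Set.InjOn (fun E => X \ E) (({A ∈ 𝒰 | i ∉ A} : Finset _) : Set (Finset (Fin g))) := by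
    intro A hA B hB hAB
    have hA' := (mem_filter.1 (mem_coe.1 hA)).2
    have hB' := (mem_filter.1 (mem_coe.1 hB)).2
    have hAX : A ⊆ X := fun x hx => mem_erase.2 ⟨fun h => hA' (h ▸ hx), mem_univ _⟩
    have hBX : B ⊆ X := fun x hx => mem_erase.2 ⟨fun h => hB' (h ▸ hx), mem_univ _⟩
    have hAB' : X \ A = X \ B := hAB
    rw [← Finset.sdiff_sdiff_eq_self hAX, hAB', Finset.sdiff_sdiff_eq_self hBX]
  have hinj2 : Set.InjOn (fun E => X \ E) (({A ∈ 𝒰 | i ∈ A} : Finset _) : Set (Finset (Fin g))) := by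
    intro A hA B hB hAB
    have hA' := (mem_filter.1 (mem_coe.1 hA)).2
    have hB' := (mem_filter.1 (mem_coe.1 hB)).2
    have hAB' : X \ A = X \ B := hAB
    ext x
    by_cases hx : x = i
    · subst hx; exact ⟨fun _ => hB', fun _ => hA'⟩
    · have hxX : x ∈ X := mem_erase.2 ⟨hx, mem_univ _⟩
      have : x ∈ X \ A ↔ x ∈ X \ B := by rw [hAB']
      simp only [mem_sdiff, hxX, true_and] at this
      exact not_iff_not.1 this
  have hc𝒜 : #𝒜 = #{A ∈ 𝒰 | i ∉ A} := card_image_of_injOn hinj1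
  have hcℬ : #ℬ = deg 𝒰 i := card_image_of_injOn hinj2
  have h𝒜s : ∀ A ∈ 𝒜, A ⊆ X ∧ #A = g - 1 - m := by
    intro A hA
    obtain ⟨E, hE, rfl⟩ := mem_image.1 hA
    have hE' := mem_filter.1 hE
    refine ⟨sdiff_subset, ?_⟩
    have hEX : E ⊆ X := fun x hx => mem_erase.2 ⟨fun h => hE'.2 (h ▸ hx), mem_univ _⟩
    rw [card_sdiff_of_subset hEX, hXc, hm E hE'.1]
  have hℬs : ∀ B ∈ ℬ, B ⊆ X ∧ #B = g - m := by
    intro A hA
    obtain ⟨E, hE, rfl⟩ := mem_image.1 hA
    have hE' := mem_filter.1 hE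
    refine ⟨sdiff_subset, ?_⟩
    have e1 : X \ E = univ \ E := by
      ext x
      simp only [hX, mem_sdiff, mem_erase, mem_univ, and_true, true_and]
      constructor
      · exact fun h => h.2
      · intro h
        exact ⟨fun h' => h (h' ▸ hE'.2), h⟩
    rw [e1, card_sdiff_of_subset (subset_univ _), card_univ, Fintype.card_fin, hm E hE'.1]
  have hAB : ∀ A ∈ 𝒜, ∀ B ∈ ℬ, A ∪ B ≠ X := by
    intro A hA B hB hABX
    obtain ⟨E, hE, rfl⟩ := mem_image.1 hA
    obtain ⟨F, hF, rfl⟩ := mem_image.1 hB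
    have hE' := mem_filter.1 hE
    have hF' := mem_filter.1 hF
    obtain ⟨x, hx⟩ := hI E hE'.1 F hF'.1
    have hxE := (mem_inter.1 hx).1
    have hxF := (mem_inter.1 hx).2
    have hxX : x ∈ X := mem_erase.2 ⟨fun h => hE'.2 (h ▸ hxE), mem_univ _⟩
    rw [← hABX, mem_union, mem_sdiff, mem_sdiff] at hxX
    rcases hxX with h | h
    · exact h.2 hxE
    · exact h.2 hxF
  have hq1 := choose_ratio (g := g - 1) (m := m - 1) (by omega) 1 (by omega)
  have hq2 := choose_ratio (g := g) (m := m) (by omega) 2 (by omega)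
  have hgpos : (0 : ℝ) < g := by exact_mod_cast (show 0 < g by omega)
  by_cases hcase : (g - 3).choose (m - 2) ≤ #𝒜
  · exfalso
    have hk := kkx X 𝒜 ℬ (s := g - 1 - m) (b := g - m) (T := 2) h𝒜s hℬs hAB
      (by rw [hXc]; omega) (by rw [hXc]; omega) (by rw [hXc]; omega) (by
        rw [hXc]
        refine le_trans (le_of_eq ?_) hcase
        have e1 : g - 1 - 2 = g - 3 := by omega
        rw [e1, ← Nat.choose_symm (show m - 2 ≤ g - 3 by omega)]
        congr 1
        omega)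
    rw [hXc, hcℬ] at hk
    have e1 : g - 1 - (g - m) = m - 1 := by omega
    have e2 : (g - 1).choose (g - m) = (g - 1).choose (m - 1) := by
      rw [← Nat.choose_symm (show m - 1 ≤ g - 1 by omega)]
      congr 1
      omega
    rw [e1, e2] at hk
    have e3 : g - 1 - 2 = g - 3 := by omega
    rw [e3] at hk
    -- Pascal twice
    have p1 : (g - 1).choose (m - 1) = (g - 2).choose (m - 2) + (g - 2).choose (m - 1) := by
      obtain ⟨g', rfl⟩ : ∃ g', g = g' + 3 := ⟨g - 3, by omega⟩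
      obtain ⟨m', rfl⟩ : ∃ m', m = m' + 2 := ⟨m - 2, by omega⟩
      have := Nat.choose_succ_succ (g' + 1) m'
      simpa using this
    have p2 : (g - 2).choose (m - 1) = (g - 3).choose (m - 2) + (g - 3).choose (m - 1) := by
      obtain ⟨g', rfl⟩ : ∃ g', g = g' + 3 := ⟨g - 3, by omega⟩
      obtain ⟨m', rfl⟩ : ∃ m', m = m' + 2 := ⟨m - 2, by omega⟩
      have := Nat.choose_succ_succ g' m'
      simpa using this
    have p3 : (g - 3).choose (m - 2) ≤ (g - 2).choose (m - 2) :=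
      Nat.choose_le_choose _ (by omega)
    have hk2 : deg 𝒰 i ≤ 2 * (g - 2).choose (m - 2) := by omega
    have e4 : g - 1 - 1 = g - 2 := by omega
    have e5 : m - 1 - 1 = m - 2 := by omega
    rw [e4, e5, pow_one] at hq1
    have hr : (((m - 1 : ℕ) : ℝ) / ((g - 1 : ℕ) : ℝ)) ≤ (m : ℝ) / g := by
      have hg1 : (0 : ℝ) < ((g - 1 : ℕ) : ℝ) := by exact_mod_cast (show 0 < g - 1 by omega)
      rw [div_le_div_iff₀ hg1 hgpos, Nat.cast_sub (by omega), Nat.cast_sub (by omega)]
      have : (m : ℝ) ≤ g := by exact_mod_cast (show m ≤ g by omega)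
      push_cast
      nlinarith
    have hk3 : (deg 𝒰 i : ℝ) ≤ 2 * ((m : ℝ) / g) * ((g - 1).choose (m - 1) : ℝ) := by
      calc (deg 𝒰 i : ℝ) ≤ 2 * ((g - 2).choose (m - 2) : ℝ) := by exact_mod_cast hk2
        _ ≤ 2 * ((((m - 1 : ℕ) : ℝ) / ((g - 1 : ℕ) : ℝ)) * ((g - 1).choose (m - 1) : ℝ)) := by
            gcongr
        _ ≤ 2 * (((m : ℝ) / g) * ((g - 1).choose (m - 1) : ℝ)) := by gcongr
        _ = _ := by ring
    linarith
  · push Not at hcase
    rw [← hc𝒜]
    have p3 : (g - 3).choose (m - 2) ≤ (g - 2).choose (m - 2) :=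
      Nat.choose_le_choose _ (by omega)
    calc (#𝒜 : ℝ) ≤ ((g - 2).choose (m - 2) : ℝ) := by exact_mod_cast (hcase.le.trans p3)
      _ ≤ _ := hq2

/-- Abstract Lemma B (section 7 of the blueprint). -/
theorem lemmaB_abstract {g m : ℕ} (𝒰 : Finset (Finset (Fin g))) (hI : Inter 𝒰)
    (hm : ∀ A ∈ 𝒰, #A = m) (hg : 100 * m ≤ g) (D : ℝ) (hD : 3 * ((m : ℝ) / g) ≤ D)
    (hdeg : ∀ x, (deg 𝒰 x : ℝ) ≤ D * ((g - 1).choose (m - 1) : ℝ)) :
    (#𝒰 : ℝ) ≤ (2 * D * ((m : ℝ) / g) + 30 * ((m : ℝ) / g) ^ 2) * (g.choose m : ℝ) := by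
  classical
  have hD0 : 0 ≤ D := le_trans (by positivity) hD
  rcases Nat.eq_zero_or_pos m with rfl | hm1
  · have : 𝒰 = ∅ := by
      rw [eq_empty_iff_forall_notMem]
      intro A hA
      have h1 := hm A hA
      rw [card_eq_zero] at h1
      subst h1
      have := hI ∅ hA ∅ hA
      simp at this
    rw [this]
    simp
  rcases Nat.lt_or_ge m 2 with hm2 | hm2
  · -- m = 1
    have hm1' : m = 1 := by omega
    subst hm1'
    rcases 𝒰.eq_empty_or_nonempty with rfl | ⟨A, hA⟩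
    · simp only [card_empty, Nat.cast_zero]
      positivity
    · obtain ⟨x, hx⟩ := card_eq_one.1 (hm A hA)
      have hall : 𝒰 ⊆ {B ∈ 𝒰 | x ∈ B} := by
        intro B hB
        rw [mem_filter]
        refine ⟨hB, ?_⟩
        obtain ⟨y, hy⟩ := hI A hA B hB
        rw [hx] at hy
        have := mem_inter.1 hy
        rw [mem_singleton] at this
        rw [← this.1]
        exact this.2
      have h1 : (#𝒰 : ℝ) ≤ D := by
        calc (#𝒰 : ℝ) ≤ (deg 𝒰 x : ℝ) := by exact_mod_cast card_le_card hall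
          _ ≤ D * ((g - 1).choose (1 - 1) : ℝ) := hdeg x
          _ = D := by simp
      have hgpos : (0 : ℝ) < g := by exact_mod_cast (show 0 < g by omega)
      rw [Nat.choose_one_right]
      have e : (2 * D * (((1 : ℕ) : ℝ) / g) + 30 * (((1 : ℕ) : ℝ) / g) ^ 2) * (g : ℝ)
          = 2 * D + 30 / g := by
        field_simp
        push_cast
        ring
      rw [e]
      have : (0 : ℝ) ≤ 30 / g := by positivity
      linarith
  -- main induction
  obtain ⟨N, hN⟩ : ∃ N, pot 𝒰 = N := ⟨_, rfl⟩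
  induction N using Nat.strong_induction_on generalizing 𝒰 with
  | _ N ih =>
    by_cases hs : Shifted 𝒰
    · have h := shifted_case hs hI hm hm1 hg D hdeg hD0
      refine h.trans ?_
      have hc : (0 : ℝ) ≤ (g.choose m : ℝ) := Nat.cast_nonneg _
      have hq : (0 : ℝ) ≤ (m : ℝ) / g := by positivity
      have : D * ((m : ℝ) / g) + 16 * ((m : ℝ) / g) ^ 2
          ≤ 2 * D * ((m : ℝ) / g) + 30 * ((m : ℝ) / g) ^ 2 := by
        nlinarith [mul_nonneg hD0 hq, sq_nonneg ((m : ℝ) / g)]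
      gcongr
    · unfold Shifted at hs
      push Not at hs
      obtain ⟨i, j, hij, A, hA, hjA, hiA, hn⟩ := hs
      set 𝒱 := shift 𝒰 i j with h𝒱
      have hpot : pot 𝒱 < N := by
        rw [← hN]
        exact pot_shift_lt hij ⟨A, hA, hjA, hiA, hn⟩
      have hI' : Inter 𝒱 := shift_inter hI i j
      have hm' : ∀ A ∈ 𝒱, #A = m := by
        intro B hB
        obtain ⟨C, hC, rfl⟩ := mem_image.1 hB
        rw [shf_card]
        exact hm C hC
      have hcard : #𝒱 = #𝒰 := shift_card 𝒰 i j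
      by_cases hgood : ∀ x, (deg 𝒱 x : ℝ) ≤ D * ((g - 1).choose (m - 1) : ℝ)
      · have := ih (pot 𝒱) hpot 𝒱 hI' hm' hgood rfl
        rwa [hcard] at this
      · push Not at hgood
        obtain ⟨x, hx⟩ := hgood
        have hxi : x = i := by
          by_contra hne
          have h1 : deg 𝒱 x ≤ deg 𝒰 x := deg_shift_le hne
          have h2 : (deg 𝒱 x : ℝ) ≤ (deg 𝒰 x : ℝ) := by exact_mod_cast h1
          linarith [hdeg x]
        subst hxi
        have h2 : (deg 𝒱 x : ℝ) ≤ 2 * D * ((g - 1).choose (m - 1) : ℝ) := by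
          have h3 : (deg 𝒱 x : ℝ) ≤ (deg 𝒰 x : ℝ) + (deg 𝒰 j : ℝ) := by
            exact_mod_cast deg_shift_self_le
          have h4 := hdeg x
          have h5 := hdeg j
          linarith
        have h3 := few_avoid hI' hm' hm2 hg x (by
          refine lt_of_le_of_lt ?_ hx
          have hc : (0 : ℝ) ≤ ((g - 1).choose (m - 1) : ℝ) := Nat.cast_nonneg _
          have hq : (0 : ℝ) ≤ (m : ℝ) / g := by positivity
          have : 2 * ((m : ℝ) / g) ≤ D := by linarith
          gcongr)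
        have h4 : (#𝒰 : ℝ) = (deg 𝒱 x : ℝ) + (#{A ∈ 𝒱 | x ∉ A} : ℝ) := by
          rw [← hcard]
          unfold deg
          rw [← card_filter_add_card_filter_not (s := 𝒱) (fun A => x ∈ A)]
          push_cast
          rfl
        have h5 := choose_ratio (g := g) (m := m) (by omega) 1 hm1
        have hc : (0 : ℝ) ≤ (g.choose m : ℝ) := Nat.cast_nonneg _
        rw [h4]
        calc (deg 𝒱 x : ℝ) + (#{A ∈ 𝒱 | x ∉ A} : ℝ)
            ≤ 2 * D * (((m : ℝ) / g) ^ 1 * (g.choose m : ℝ))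
              + ((m : ℝ) / g) ^ 2 * (g.choose m : ℝ) := by
              refine add_le_add (h2.trans ?_) h3
              gcongr
          _ ≤ _ := by
              have : (0 : ℝ) ≤ ((m : ℝ) / g) ^ 2 * (g.choose m : ℝ) := by positivity
              nlinarith

end Pool.Agent.Helper87.Kl
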