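import Mathlib
import Pool.Agent.Helper87.Kl.LemmaB

set_option autoImplicit false

namespace Pool.Agent.Helper87.Kl

open Finset

variable {α : Type*} [DecidableEq α]

/-- Abstract Lemma B on an arbitrary finite ground set. -/
theorem lemmaB_set (X : Finset α) (𝒰 : Finset (Finset α)) {m : ℕ}
    (hm : ∀ A ∈ 𝒰, A ⊆ X ∧ #A = m) (hI : ∀ A ∈ 𝒰, ∀ B ∈ 𝒰, (A ∩ B).Nonempty)
    (hg : 100 * m ≤ #X) (D : ℝ) (hD : 3 * ((m : ℝ) / #X) ≤ D)
    (hdeg : ∀ x ∈ X, (#{A ∈ 𝒰 | x ∈ A} : ℝ) ≤ D * ((#X - 1).choose (m - 1) : ℝ)) :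
    (#𝒰 : ℝ) ≤ (2 * D * ((m : ℝ) / #X) + 30 * ((m : ℝ) / #X) ^ 2) * ((#X).choose m : ℝ) := by
  classical
  let e : Fin #X ≃ X := X.equivFin.symm
  let ι : Fin #X ↪ α := e.toEmbedding.trans (Function.Embedding.subtype _)
  have hι : ∀ x ∈ X, ∃ i, ι i = x := by
    intro x hx
    exact ⟨e.symm ⟨x, hx⟩, by simp [ι]⟩
  have hιX : ∀ i, ι i ∈ X := fun i => by simp [ι]
  let pull : Finset α → Finset (Fin #X) := fun A => univ.filter (fun i => ι i ∈ A)
  have hpp : ∀ A, A ⊆ X → (pull A).map ι = A := by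
    intro A hA
    ext x
    simp only [pull, mem_map, mem_filter, mem_univ, true_and]
    constructor
    · rintro ⟨i, hi, rfl⟩
      exact hi
    · intro hx
      obtain ⟨i, rfl⟩ := hι x (hA hx)
      exact ⟨i, hx, rfl⟩
  have hcardpull : ∀ A, A ⊆ X → #(pull A) = #A := by
    intro A hA
    conv_rhs => rw [← hpp A hA]
    rw [card_map]
  let 𝒱 : Finset (Finset (Fin #X)) := 𝒰.image pull
  have hinj : Set.InjOn pull (𝒰 : Set (Finset α)) := by
    intro A hA B hB hAB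
    rw [← hpp A (hm A (by simpa using hA)).1, ← hpp B (hm B (by simpa using hB)).1, hAB]
  have hcard : #𝒱 = #𝒰 := card_image_of_injOn hinj
  have h := lemmaB_abstract 𝒱 (m := m) (by
    intro A hA B hB
    obtain ⟨A', hA', rfl⟩ := mem_image.1 hA
    obtain ⟨B', hB', rfl⟩ := mem_image.1 hB
    obtain ⟨x, hx⟩ := hI A' hA' B' hB'
    have hxA := (mem_inter.1 hx).1
    have hxB := (mem_inter.1 hx).2
    obtain ⟨i, rfl⟩ := hι x ((hm A' hA').1 hxA)
    exact ⟨i, by simp [pull, hxA, hxB]⟩) (by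
    intro A hA
    obtain ⟨A', hA', rfl⟩ := mem_image.1 hA
    rw [hcardpull A' (hm A' hA').1]
    exact (hm A' hA').2) hg D hD (by
    intro i
    refine le_trans ?_ (hdeg (ι i) (hιX i))
    have : deg 𝒱 i ≤ #{A ∈ 𝒰 | ι i ∈ A} := by
      unfold deg
      refine card_le_card_of_injOn (fun A => A.map ι) ?_ ?_
      · intro A hA
        rw [mem_coe, mem_filter] at hA
        obtain ⟨A', hA', rfl⟩ := mem_image.1 hA.1
        rw [mem_coe, mem_filter]
        simp only
        rw [hpp A' (hm A' hA').1]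
        refine ⟨hA', ?_⟩
        simpa [pull] using hA.2
      · intro A _ B _ hAB
        exact map_injective ι hAB
    exact_mod_cast this)
  rwa [hcard] at h

end Pool.Agent.Helper87.Kl
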